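import Mathlib

/-!
# The space of contraction semigroups is a Baire space

Let `H` be a separable complex Hilbert space and let `x 0, x 1, …` be a dense sequence of nonzero
vectors. The set of all contraction `C_0`-semigroups on `H`, with the metric
`d(T,S) = ∑ 2^{-(n+i+j)} sup_{0 ≤ t ≤ n} |⟨(T(t) - S(t)) x_i, x_j⟩| / (‖x_i‖ ‖x_j‖)`
is a Polish space (separable and completely metrizable), and hence a Baire space.

Proof: in terms of an orthonormal basis `b`, the space embeds into the Polish space of all families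
`(F i j)` of continuous functions on `[0,∞)` by `F i j t = ⟨b i, T(t) b j⟩`. The families for which
all matrices `F(t)` are matrices of contractions form a closed set, and the semigroup law
`F(t+s) i j = lim_v ∑_{l ∈ v} F(t) i l F(s) l j` (`v` finite) is a `G_δ` condition because the limit
on the right side always exists, so that it suffices to say that `F(t+s) i j` is a cluster point.
-/

open Filter Topology Set TopologicalSpace
open scoped ComplexConjugate NNReal ENNReal

namespace Pool.Agent.Results.MP_eb8260_an.Baire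

universe u

/-- The contraction `C_0`-semigroups on `H`: families `T(t)`, `t ≥ 0`, of bounded operators with
`T(0) = I`, `T(t+s) = T(t) T(s)`, `t ↦ T(t) x` norm-continuous for every `x`, `‖T(t)‖ ≤ 1`. -/
@[ext]
structure ContractionSemigroup (H : Type u) [NormedAddCommGroup H] [InnerProductSpace ℂ H] where
  /-- the operators -/
  T : ℝ≥0 → H →L[ℂ] H
  zero : T 0 = ContinuousLinearMap.id ℂ H
  add : ∀ t s, T (t + s) = (T t).comp (T s)
  cont : ∀ x, Continuous fun t => T t x
  contr : ∀ t, ‖T t‖ ≤ 1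

variable {H : Type u} [NormedAddCommGroup H] [InnerProductSpace ℂ H]

/-- `sup_{0 ≤ t ≤ n} |⟨(T(t) - S(t)) x, y⟩|` -/
noncomputable def supDiff (T S : ContractionSemigroup H) (n : ℕ) (x y : H) : ℝ :=
  ⨆ t : Set.Icc (0 : ℝ≥0) (n : ℝ≥0), ‖(inner ℂ y (T.T t x - S.T t x) : ℂ)‖

/-- The term of the series of `d(T,S)` for the triple `p = (n - 1, i - 1, j - 1)`, `n, i, j ≥ 1`;
the sequence `x_1, x_2, …` is `x 0, x 1, …`. -/
noncomputable def dTerm (x : ℕ → H) (T S : ContractionSemigroup H) (p : ℕ × ℕ × ℕ) : ℝ :=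
  (1 / 2 : ℝ) ^ ((p.2.1 + 1) + (p.2.2 + 1) + (p.1 + 1)) *
    (supDiff T S (p.1 + 1) (x p.2.1) (x p.2.2) / (‖x p.2.1‖ * ‖x p.2.2‖))

/-! ### matrix coefficients -/

/-- the matrix coefficient `t ↦ ⟨y, T(t) x⟩` -/
noncomputable def coef (T : ContractionSemigroup H) (y x : H) : C(ℝ≥0, ℂ) :=
  ⟨fun t => inner ℂ y (T.T t x), (continuous_const.inner (T.cont x))⟩

@[simp] theorem coef_apply (T : ContractionSemigroup H) (y x : H) (t : ℝ≥0) :
    coef T y x t = inner ℂ y (T.T t x) := rfl

theorem norm_T_apply (T : ContractionSemigroup H) (t : ℝ≥0) (x : H) : ‖T.T t x‖ ≤ ‖x‖ := by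
  have := (T.T t).le_of_opNorm_le (T.contr t) x
  rwa [one_mul] at this

theorem norm_coef_le (T : ContractionSemigroup H) (y x : H) (t : ℝ≥0) :
    ‖coef T y x t‖ ≤ ‖y‖ * ‖x‖ := by
  refine (norm_inner_le_norm _ _).trans ?_
  gcongr
  exact norm_T_apply T t x

/-- convergence of the coefficients of a total family gives convergence of all coefficients -/
theorem coef_tendsto {κ : Type*} {v : κ → H} (hv : (Submodule.span ℂ (range v)).topologicalClosure = ⊤)
    {l : Filter (ContractionSemigroup H)} {T₀ : ContractionSemigroup H}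
    (h : ∀ i j, Tendsto (fun T => coef T (v i) (v j)) l (𝓝 (coef T₀ (v i) (v j)))) (y x : H) :
    Tendsto (fun T => coef T y x) l (𝓝 (coef T₀ y x)) := by
  -- first step: the vector on the right
  have key1 : ∀ i x, Tendsto (fun T => coef T (v i) x) l (𝓝 (coef T₀ (v i) x)) := by
    intro i x
    let S : Submodule ℂ H :=
      { carrier := {x | Tendsto (fun T => coef T (v i) x) l (𝓝 (coef T₀ (v i) x))}
        add_mem' := by
          intro a b ha hb
          have e : ∀ T : ContractionSemigroup H, coef T (v i) (a + b) =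
              coef T (v i) a + coef T (v i) b := fun T => by
            ext t; simp
          simp only [mem_ofPred_eq, e]
          exact Tendsto.add ha hb
        zero_mem' := by
          have e : ∀ T : ContractionSemigroup H, coef T (v i) 0 = 0 := fun T => by
            ext t; simp
          simp only [mem_ofPred_eq, e]
          exact tendsto_const_nhds
        smul_mem' := by
          intro c a ha
          have e : ∀ T : ContractionSemigroup H, coef T (v i) (c • a) = c • coef T (v i) a :=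
            fun T => by ext t; simp
          simp only [mem_ofPred_eq, e]
          exact Tendsto.const_smul ha c }
    have hclosed : IsClosed (S : Set H) := by
      rw [← closure_subset_iff_isClosed]
      intro z hz
      change Tendsto (fun T => coef T (v i) z) l (𝓝 (coef T₀ (v i) z))
      rw [ContinuousMap.tendsto_iff_forall_isCompact_tendstoUniformlyOn]
      intro K hK
      rw [Metric.tendstoUniformlyOn_iff]
      intro ε hε
      have hpos : 0 < ε / 3 / (‖v i‖ + 1) := by positivity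
      obtain ⟨w, hw, hwz⟩ := Metric.mem_closure_iff.1 hz _ hpos
      have hw' : Tendsto (fun T => coef T (v i) w) l (𝓝 (coef T₀ (v i) w)) := hw
      rw [ContinuousMap.tendsto_iff_forall_isCompact_tendstoUniformlyOn] at hw'
      have h2 := Metric.tendstoUniformlyOn_iff.1 (hw' K hK) (ε / 3) (by positivity)
      have hdiff : ∀ (T : ContractionSemigroup H) t, ‖coef T (v i) z t - coef T (v i) w t‖ <
          ε / 3 := by
        intro T t
        have e : coef T (v i) z t - coef T (v i) w t = coef T (v i) (z - w) t := by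
          simp
        rw [e]
        refine (norm_coef_le T _ _ _).trans_lt ?_
        rw [dist_eq_norm] at hwz
        have h3 : ‖v i‖ * ‖z - w‖ ≤ (‖v i‖ + 1) * ‖z - w‖ := by
          gcongr; linarith
        have h4 : (‖v i‖ + 1) * ‖z - w‖ < (‖v i‖ + 1) * (ε / 3 / (‖v i‖ + 1)) := by
          have : 0 < ‖v i‖ + 1 := by positivity
          gcongr
        have h5 : (‖v i‖ + 1) * (ε / 3 / (‖v i‖ + 1)) = ε / 3 := by
          field_simp
        linarith
      filter_upwards [h2] with T hT t ht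
      have h6 := hT t ht
      rw [dist_eq_norm] at h6 ⊢
      have e : coef T₀ (v i) z t - coef T (v i) z t = (coef T₀ (v i) z t - coef T₀ (v i) w t) +
          (coef T₀ (v i) w t - coef T (v i) w t) - (coef T (v i) z t - coef T (v i) w t) := by ring
      rw [e]
      have h7 := norm_sub_le ((coef T₀ (v i) z t - coef T₀ (v i) w t) +
          (coef T₀ (v i) w t - coef T (v i) w t)) (coef T (v i) z t - coef T (v i) w t)
      have h8 := norm_add_le (coef T₀ (v i) z t - coef T₀ (v i) w t)
          (coef T₀ (v i) w t - coef T (v i) w t)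
      have h9 := hdiff T₀ t
      have h10 := hdiff T t
      linarith
    have hle : Submodule.span ℂ (range v) ≤ S := by
      rw [Submodule.span_le]
      rintro _ ⟨j, rfl⟩
      exact h i j
    have htop : (⊤ : Submodule ℂ H) ≤ S := by
      rw [← hv]
      exact Submodule.topologicalClosure_minimal _ hle hclosed
    exact htop (Submodule.mem_top (x := x))
  -- second step: the vector on the left
  let S : Submodule ℂ H :=
    { carrier := {y | Tendsto (fun T => coef T y x) l (𝓝 (coef T₀ y x))}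
      add_mem' := by
        intro a b ha hb
        have e : ∀ T : ContractionSemigroup H, coef T (a + b) x =
            coef T a x + coef T b x := fun T => by
          ext t; simp
        simp only [mem_ofPred_eq, e]
        exact Tendsto.add ha hb
      zero_mem' := by
        have e : ∀ T : ContractionSemigroup H, coef T 0 x = 0 := fun T => by
          ext t; simp
        simp only [mem_ofPred_eq, e]
        exact tendsto_const_nhds
      smul_mem' := by
        intro c a ha
        have e : ∀ T : ContractionSemigroup H, coef T (c • a) x = conj c • coef T a x :=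
          fun T => by ext t; simp [mul_comm]
        simp only [mem_ofPred_eq, e]
        exact Tendsto.const_smul ha _ }
  have hclosed : IsClosed (S : Set H) := by
    rw [← closure_subset_iff_isClosed]
    intro z hz
    change Tendsto (fun T => coef T z x) l (𝓝 (coef T₀ z x))
    rw [ContinuousMap.tendsto_iff_forall_isCompact_tendstoUniformlyOn]
    intro K hK
    rw [Metric.tendstoUniformlyOn_iff]
    intro ε hε
    have hpos : 0 < ε / 3 / (‖x‖ + 1) := by positivity
    obtain ⟨w, hw, hwz⟩ := Metric.mem_closure_iff.1 hz _ hpos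
    have hw' : Tendsto (fun T => coef T w x) l (𝓝 (coef T₀ w x)) := hw
    rw [ContinuousMap.tendsto_iff_forall_isCompact_tendstoUniformlyOn] at hw'
    have h2 := Metric.tendstoUniformlyOn_iff.1 (hw' K hK) (ε / 3) (by positivity)
    have hdiff : ∀ (T : ContractionSemigroup H) t, ‖coef T z x t - coef T w x t‖ <
        ε / 3 := by
      intro T t
      have e : coef T z x t - coef T w x t = coef T (z - w) x t := by
        simp
      rw [e]
      refine (norm_coef_le T _ _ _).trans_lt ?_
      rw [dist_eq_norm] at hwz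
      have h3 : ‖z - w‖ * ‖x‖ ≤ (‖x‖ + 1) * ‖z - w‖ := by
        rw [mul_comm]; gcongr; linarith
      have h4 : (‖x‖ + 1) * ‖z - w‖ < (‖x‖ + 1) * (ε / 3 / (‖x‖ + 1)) := by
        have : 0 < ‖x‖ + 1 := by positivity
        gcongr
      have h5 : (‖x‖ + 1) * (ε / 3 / (‖x‖ + 1)) = ε / 3 := by
        field_simp
      linarith
    filter_upwards [h2] with T hT t ht
    have h6 := hT t ht
    rw [dist_eq_norm] at h6 ⊢
    have e : coef T₀ z x t - coef T z x t = (coef T₀ z x t - coef T₀ w x t) +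
        (coef T₀ w x t - coef T w x t) - (coef T z x t - coef T w x t) := by ring
    rw [e]
    have h7 := norm_sub_le ((coef T₀ z x t - coef T₀ w x t) +
        (coef T₀ w x t - coef T w x t)) (coef T z x t - coef T w x t)
    have h8 := norm_add_le (coef T₀ z x t - coef T₀ w x t)
        (coef T₀ w x t - coef T w x t)
    have h9 := hdiff T₀ t
    have h10 := hdiff T t
    linarith
  have hle : Submodule.span ℂ (range v) ≤ S := by
    rw [Submodule.span_le]
    rintro _ ⟨j, rfl⟩
    exact key1 j x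
  have htop : (⊤ : Submodule ℂ H) ≤ S := by
    rw [← hv]
    exact Submodule.topologicalClosure_minimal _ hle hclosed
  exact htop (Submodule.mem_top (x := y))

/-! ### weak operator limits -/

/-- weak operator limits of contractions along ultrafilters -/
theorem exists_limit [CompleteSpace H] {ι : Type*} (U : Ultrafilter ι) (X : ι → (H →L[ℂ] H))
    (hX : ∀ s, ‖X s‖ ≤ 1) :
    ∃ Y : H →L[ℂ] H, ‖Y‖ ≤ 1 ∧
      ∀ x y, Filter.Tendsto (fun s => inner ℂ x (X s y)) U (𝓝 (inner ℂ x (Y y))) := by
  have hb : ∀ x y : H, ∀ s, ‖(inner ℂ x (X s y) : ℂ)‖ ≤ ‖x‖ * ‖y‖ := by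
    intro x y s
    refine (norm_inner_le_norm _ _).trans ?_
    have := (X s).le_of_opNorm_le (hX s) y
    rw [one_mul] at this
    gcongr
  have hlim : ∀ x y : H, ∃ z : ℂ, ‖z‖ ≤ ‖x‖ * ‖y‖ ∧
      Filter.Tendsto (fun s => (inner ℂ x (X s y) : ℂ)) U (𝓝 z) := by
    intro x y
    have hc : IsCompact (Metric.closedBall (0 : ℂ) (‖x‖ * ‖y‖)) := isCompact_closedBall _ _
    obtain ⟨z, hz, hle⟩ := hc.ultrafilter_le_nhds (U.map (fun s => (inner ℂ x (X s y) : ℂ))) (by
      rw [Filter.le_principal_iff, Ultrafilter.mem_coe, Ultrafilter.mem_map]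
      refine Filter.univ_mem' fun s => ?_
      rw [Set.mem_preimage, mem_closedBall_zero_iff]
      exact hb x y s)
    refine ⟨z, by simpa using hz, ?_⟩
    exact hle
  choose L hL1 hL2 using hlim
  have uniq : ∀ x y z, Filter.Tendsto (fun s => (inner ℂ x (X s y) : ℂ)) U (𝓝 z) → L x y = z :=
    fun x y z h => tendsto_nhds_unique (hL2 x y) h
  have hadd1 : ∀ x x' y, L (x + x') y = L x y + L x' y := by
    intro x x' y
    refine uniq _ _ _ ?_
    refine ((hL2 x y).add (hL2 x' y)).congr fun s => ?_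
    rw [inner_add_left]
  have hsmul1 : ∀ (a : ℂ) x y, L (a • x) y = conj a * L x y := by
    intro a x y
    refine uniq _ _ _ ?_
    refine ((hL2 x y).const_mul (conj a)).congr fun s => ?_
    rw [inner_smul_left]
  have hadd2 : ∀ x y y', L x (y + y') = L x y + L x y' := by
    intro x y y'
    refine uniq _ _ _ ?_
    refine ((hL2 x y).add (hL2 x y')).congr fun s => ?_
    rw [map_add, inner_add_right]
  have hsmul2 : ∀ (a : ℂ) x y, L x (a • y) = a * L x y := by
    intro a x y
    refine uniq _ _ _ ?_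
    refine ((hL2 x y).const_mul a).congr fun s => ?_
    rw [map_smul, inner_smul_right]
  have hex : ∀ y, ∃ η : H, ∀ x, inner ℂ x η = L x y := by
    intro y
    let φ : H →ₗ[ℂ] ℂ :=
      { toFun := fun x => conj (L x y)
        map_add' := fun x x' => by rw [hadd1, map_add]
        map_smul' := fun a x => by
          rw [hsmul1, map_mul, Complex.conj_conj]; rfl }
    have hφ : ∀ x, ‖φ x‖ ≤ ‖y‖ * ‖x‖ := by
      intro x
      change ‖conj (L x y)‖ ≤ _
      rw [RCLike.norm_conj, mul_comm]
      exact hL1 x y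
    refine ⟨(InnerProductSpace.toDual ℂ H).symm (φ.mkContinuous ‖y‖ hφ), fun x => ?_⟩
    rw [← inner_conj_symm, InnerProductSpace.toDual_symm_apply]
    change conj (conj (L x y)) = L x y
    rw [Complex.conj_conj]
  choose Yf hYf using hex
  let Yl : H →ₗ[ℂ] H :=
    { toFun := Yf
      map_add' := fun y y' => by
        refine ext_inner_left ℂ fun x => ?_
        rw [hYf, inner_add_right, hYf, hYf, hadd2]
      map_smul' := fun a y => by
        refine ext_inner_left ℂ fun x => ?_
        rw [hYf, RingHom.id_apply, inner_smul_right, hYf, hsmul2] }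
  have hYb : ∀ y, ‖Yl y‖ ≤ 1 * ‖y‖ := by
    intro y
    rw [one_mul]
    change ‖Yf y‖ ≤ ‖y‖
    have h1 : ‖(inner ℂ (Yf y) (Yf y) : ℂ)‖ ≤ ‖Yf y‖ * ‖y‖ := by
      rw [hYf]; exact hL1 _ _
    have h2 : ‖(inner ℂ (Yf y) (Yf y) : ℂ)‖ = ‖Yf y‖ ^ 2 := by
      rw [inner_self_eq_norm_sq_to_K, norm_pow]
      simp
    rw [h2] at h1
    rcases eq_or_lt_of_le (norm_nonneg (Yf y)) with h | h
    · rw [← h]; exact norm_nonneg y
    · nlinarith
  refine ⟨Yl.mkContinuous 1 hYb, LinearMap.mkContinuous_norm_le _ zero_le_one _, fun x y => ?_⟩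
  have : (inner ℂ x ((Yl.mkContinuous 1 hYb) y) : ℂ) = L x y := hYf y x
  rw [this]
  exact hL2 x y

/-! ### the embedding and its range -/

section embed

variable [CompleteSpace H] {ι : Type*} (b : HilbertBasis ι ℂ H)

/-- matrices of contractions -/
def matK : Set (ι → ι → ℂ) :=
  {M | ∃ A : H →L[ℂ] H, ‖A‖ ≤ 1 ∧ ∀ i j, M i j = inner ℂ (b i) (A (b j))}

theorem isClosed_matK : IsClosed (matK b) := by
  rw [isClosed_iff_ultrafilter]
  intro M U hU hK
  have hch : ∀ N : ι → ι → ℂ, ∃ A : H →L[ℂ] H, ‖A‖ ≤ 1 ∧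
      (N ∈ matK b → ∀ i j, N i j = inner ℂ (b i) (A (b j))) := by
    intro N
    by_cases hN : N ∈ matK b
    · obtain ⟨A, h1, h2⟩ := hN
      exact ⟨A, h1, fun _ => h2⟩
    · exact ⟨0, by simp, fun h => absurd h hN⟩
  choose A hA1 hA2 using hch
  obtain ⟨Y, hY1, hY2⟩ := exists_limit U A hA1
  refine ⟨Y, hY1, fun i j => ?_⟩
  have h1 : Tendsto (fun N : ι → ι → ℂ => N i j) U (𝓝 (M i j)) := by
    have : Tendsto (fun N : ι → ι → ℂ => N i j) (𝓝 M) (𝓝 (M i j)) :=
      ((continuous_apply j).comp (continuous_apply i)).tendsto M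
    exact this.mono_left hU
  have h2 := hY2 (b i) (b j)
  refine tendsto_nhds_unique h1 (h2.congr' ?_)
  filter_upwards [hK] with N hN
  exact (hA2 N hN i j).symm

/-- the embedding into the families of continuous functions -/
noncomputable def emb (T : ContractionSemigroup H) : ι → ι → C(ℝ≥0, ℂ) :=
  fun i j => coef T (b i) (b j)

/-- a dense sequence of times -/
noncomputable def qs : ℕ → ℝ≥0 := denseSeq ℝ≥0

theorem dense_qs : Dense (range qs) := denseRange_denseSeq ℝ≥0

/-- the range of the embedding -/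
def rng : Set (ι → ι → C(ℝ≥0, ℂ)) :=
  {F | (∀ t, (fun i j => F i j t) ∈ matK b) ∧ (∀ i j, F i j 0 = inner ℂ (b i) (b j)) ∧
    ∀ m n : ℕ, ∀ i j, ∀ k : ℕ, ∀ u : Finset ι, ∃ v : Finset ι, u ⊆ v ∧
      ‖(∑ l ∈ v, F i l (qs m) * F l j (qs n)) - F i j (qs m + qs n)‖ < 1 / ((k : ℝ) + 1)}

theorem continuous_ev (i j : ι) (t : ℝ≥0) :
    Continuous fun F : ι → ι → C(ℝ≥0, ℂ) => F i j t :=
  (continuous_eval_const t).comp ((continuous_apply j).comp (continuous_apply i))

theorem isGδ_rng [Countable ι] : IsGδ (rng b) := by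
  have h1 : IsGδ {F : ι → ι → C(ℝ≥0, ℂ) | ∀ t, (fun i j => F i j t) ∈ matK b} := by
    have hc : IsClosed {F : ι → ι → C(ℝ≥0, ℂ) | ∀ t, (fun i j => F i j t) ∈ matK b} := by
      have e : {F : ι → ι → C(ℝ≥0, ℂ) | ∀ t, (fun i j => F i j t) ∈ matK b} =
          ⋂ t : ℝ≥0, (fun F : ι → ι → C(ℝ≥0, ℂ) => fun i j => F i j t) ⁻¹' matK b := by
        ext F; simp
      rw [e]
      refine isClosed_iInter fun t => (isClosed_matK b).preimage ?_
      exact continuous_pi fun i => continuous_pi fun j => continuous_ev i j t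
    exact hc.isGδ
  have h2 : IsGδ {F : ι → ι → C(ℝ≥0, ℂ) | ∀ i j, F i j 0 = inner ℂ (b i) (b j)} := by
    have hc : IsClosed {F : ι → ι → C(ℝ≥0, ℂ) | ∀ i j, F i j 0 = inner ℂ (b i) (b j)} := by
      have e : {F : ι → ι → C(ℝ≥0, ℂ) | ∀ i j, F i j 0 = inner ℂ (b i) (b j)} =
          ⋂ i : ι, ⋂ j : ι, {F | F i j 0 = inner ℂ (b i) (b j)} := by
        ext F; simp
      rw [e]
      exact isClosed_iInter fun i => isClosed_iInter fun j =>
        isClosed_eq (continuous_ev i j 0) continuous_const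
    exact hc.isGδ
  have h3 : IsGδ {F : ι → ι → C(ℝ≥0, ℂ) | ∀ m n : ℕ, ∀ i j, ∀ k : ℕ, ∀ u : Finset ι,
      ∃ v : Finset ι, u ⊆ v ∧
      ‖(∑ l ∈ v, F i l (qs m) * F l j (qs n)) - F i j (qs m + qs n)‖ < 1 / ((k : ℝ) + 1)} := by
    have e : {F : ι → ι → C(ℝ≥0, ℂ) | ∀ m n : ℕ, ∀ i j, ∀ k : ℕ, ∀ u : Finset ι,
      ∃ v : Finset ι, u ⊆ v ∧
      ‖(∑ l ∈ v, F i l (qs m) * F l j (qs n)) - F i j (qs m + qs n)‖ < 1 / ((k : ℝ) + 1)} =
        ⋂ m : ℕ, ⋂ n : ℕ, ⋂ i : ι, ⋂ j : ι, ⋂ k : ℕ, ⋂ u : Finset ι,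
          ⋃ v : Finset ι, ⋃ _ : u ⊆ v, {F | ‖(∑ l ∈ v, F i l (qs m) * F l j (qs n)) -
            F i j (qs m + qs n)‖ < 1 / ((k : ℝ) + 1)} := by
      ext F; simp
    rw [e]
    refine IsGδ.iInter fun m => IsGδ.iInter fun n => IsGδ.iInter fun i => IsGδ.iInter fun j =>
      IsGδ.iInter fun k => IsGδ.iInter fun u => IsOpen.isGδ ?_
    refine isOpen_iUnion fun v => isOpen_iUnion fun _ => ?_
    refine isOpen_lt (Continuous.norm ?_) continuous_const
    refine Continuous.sub ?_ (continuous_ev i j _)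
    exact continuous_finsetSum _ fun l _ => (continuous_ev i l _).mul (continuous_ev l j _)
  have e : rng b = {F : ι → ι → C(ℝ≥0, ℂ) | ∀ t, (fun i j => F i j t) ∈ matK b} ∩
      ({F : ι → ι → C(ℝ≥0, ℂ) | ∀ i j, F i j 0 = inner ℂ (b i) (b j)} ∩
      {F : ι → ι → C(ℝ≥0, ℂ) | ∀ m n : ℕ, ∀ i j, ∀ k : ℕ, ∀ u : Finset ι,
      ∃ v : Finset ι, u ⊆ v ∧
      ‖(∑ l ∈ v, F i l (qs m) * F l j (qs n)) - F i j (qs m + qs n)‖ < 1 / ((k : ℝ) + 1)}) := by
    rfl
  rw [e]
  exact h1.inter (h2.inter h3)

/-- partial sums of the matrix product converge -/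
theorem hasSum_prod (A B : H →L[ℂ] H) (i j : ι) :
    HasSum (fun l => (inner ℂ (b i) (A (b l)) : ℂ) * inner ℂ (b l) (B (b j)))
      (inner ℂ (b i) (A (B (b j)))) := by
  have h := b.hasSum_inner_mul_inner (ContinuousLinearMap.adjoint A (b i)) (B (b j))
  simpa only [ContinuousLinearMap.adjoint_inner_left] using h

theorem emb_mem_rng (T : ContractionSemigroup H) : emb b T ∈ rng b := by
  refine ⟨fun t => ⟨T.T t, T.contr t, fun i j => rfl⟩, fun i j => ?_, ?_⟩
  · change inner ℂ (b i) (T.T 0 (b j)) = _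
    rw [T.zero]; rfl
  · intro m n i j k u
    have h := hasSum_prod b (T.T (qs m)) (T.T (qs n)) i j
    have h1 : (inner ℂ (b i) (T.T (qs m) (T.T (qs n) (b j))) : ℂ) =
        emb b T i j (qs m + qs n) := by
      change _ = inner ℂ (b i) (T.T (qs m + qs n) (b j))
      rw [T.add]; rfl
    rw [h1] at h
    have h2 := (Metric.tendsto_nhds.1 h) (1 / ((k : ℝ) + 1)) (by positivity)
    obtain ⟨v, hv1, hv2⟩ := (h2.and (eventually_ge_atTop u)).exists
    refine ⟨v, hv2, ?_⟩
    rw [dist_eq_norm] at hv1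
    exact hv1

omit [CompleteSpace H] in
/-- vectors are determined by the coefficients in the basis -/
theorem ext_basis {x y : H} (h : ∀ i, (inner ℂ (b i) x : ℂ) = inner ℂ (b i) y) : x = y := by
  apply b.repr.injective
  ext i
  rw [b.repr_apply_apply, b.repr_apply_apply]
  exact h i

omit [CompleteSpace H] in
/-- operators are determined by their matrices -/
theorem ext_matrix {A B : H →L[ℂ] H} (h : ∀ i j, (inner ℂ (b i) (A (b j)) : ℂ) =
    inner ℂ (b i) (B (b j))) : A = B := by
  have h1 : ∀ j, A (b j) = B (b j) := fun j => ext_basis b fun i => h i j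
  refine ContinuousLinearMap.ext_on (s := range b) ?_ ?_
  · exact Submodule.dense_iff_topologicalClosure_eq_top.2 b.dense_span
  · rintro _ ⟨j, rfl⟩
    exact h1 j

omit [CompleteSpace H] in
/-- weak operator continuity can be tested on the basis -/
theorem wot_continuous {A : ℝ≥0 → (H →L[ℂ] H)} (hA : ∀ t, ‖A t‖ ≤ 1)
    (h : ∀ i j, Continuous fun t => (inner ℂ (b i) (A t (b j)) : ℂ)) (y x : H) :
    Continuous fun t => (inner ℂ y (A t x) : ℂ) := by
  have hn : ∀ t x, ‖A t x‖ ≤ ‖x‖ := fun t x => by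
    have := (A t).le_of_opNorm_le (hA t) x
    rwa [one_mul] at this
  have key1 : ∀ i x, Continuous fun t => (inner ℂ (b i) (A t x) : ℂ) := by
    intro i x
    let S : Submodule ℂ H :=
      { carrier := {x | Continuous fun t => (inner ℂ (b i) (A t x) : ℂ)}
        add_mem' := by
          intro a c ha hc
          simp only [mem_ofPred_eq, map_add, inner_add_right] at ha hc ⊢
          exact ha.add hc
        zero_mem' := by
          simp only [mem_ofPred_eq, map_zero, inner_zero_right]
          exact continuous_const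
        smul_mem' := by
          intro c a ha
          simp only [mem_ofPred_eq, map_smul, inner_smul_right] at ha ⊢
          exact ha.const_mul c }
    have hclosed : IsClosed (S : Set H) := by
      rw [← closure_subset_iff_isClosed]
      intro z hz
      change Continuous fun t => (inner ℂ (b i) (A t z) : ℂ)
      rw [Metric.continuous_iff]
      intro t ε hε
      have hpos : 0 < ε / 3 / (‖b i‖ + 1) := by positivity
      obtain ⟨w, hw, hwz⟩ := Metric.mem_closure_iff.1 hz _ hpos
      have hw' : Continuous fun t => (inner ℂ (b i) (A t w) : ℂ) := hw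
      obtain ⟨δ, hδ, h2⟩ := Metric.continuous_iff.1 hw' t (ε / 3) (by positivity)
      refine ⟨δ, hδ, fun s hs => ?_⟩
      have hdiff : ∀ t, ‖(inner ℂ (b i) (A t z) : ℂ) - inner ℂ (b i) (A t w)‖ < ε / 3 := by
        intro t
        rw [← inner_sub_right, ← map_sub]
        refine ((norm_inner_le_norm _ _).trans (mul_le_mul_of_nonneg_left (hn t _)
          (norm_nonneg _))).trans_lt ?_
        rw [dist_eq_norm] at hwz
        have h3 : ‖b i‖ * ‖z - w‖ ≤ (‖b i‖ + 1) * ‖z - w‖ := by
          gcongr; linarith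
        have h4 : (‖b i‖ + 1) * ‖z - w‖ < (‖b i‖ + 1) * (ε / 3 / (‖b i‖ + 1)) := by
          have : 0 < ‖b i‖ + 1 := by positivity
          gcongr
        have h5 : (‖b i‖ + 1) * (ε / 3 / (‖b i‖ + 1)) = ε / 3 := by
          field_simp
        linarith
      have h6 := h2 s hs
      rw [dist_eq_norm] at h6 ⊢
      have e : (inner ℂ (b i) (A s z) : ℂ) - inner ℂ (b i) (A t z) =
          (inner ℂ (b i) (A s z) - inner ℂ (b i) (A s w)) +
          (inner ℂ (b i) (A s w) - inner ℂ (b i) (A t w)) -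
          (inner ℂ (b i) (A t z) - inner ℂ (b i) (A t w)) := by ring
      rw [e]
      have h7 := norm_sub_le (((inner ℂ (b i) (A s z) : ℂ) - inner ℂ (b i) (A s w)) +
          (inner ℂ (b i) (A s w) - inner ℂ (b i) (A t w)))
          (inner ℂ (b i) (A t z) - inner ℂ (b i) (A t w))
      have h8 := norm_add_le ((inner ℂ (b i) (A s z) : ℂ) - inner ℂ (b i) (A s w))
          (inner ℂ (b i) (A s w) - inner ℂ (b i) (A t w))
      have h9 := hdiff s
      have h10 := hdiff t
      linarith
    have hle : Submodule.span ℂ (range b) ≤ S := by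
      rw [Submodule.span_le]
      rintro _ ⟨j, rfl⟩
      exact h i j
    have htop : (⊤ : Submodule ℂ H) ≤ S := by
      rw [← b.dense_span]
      exact Submodule.topologicalClosure_minimal _ hle hclosed
    exact htop (Submodule.mem_top (x := x))
  let S : Submodule ℂ H :=
    { carrier := {y | Continuous fun t => (inner ℂ y (A t x) : ℂ)}
      add_mem' := by
        intro a c ha hc
        simp only [mem_ofPred_eq, inner_add_left] at ha hc ⊢
        exact ha.add hc
      zero_mem' := by
        simp only [mem_ofPred_eq, inner_zero_left]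
        exact continuous_const
      smul_mem' := by
        intro c a ha
        simp only [mem_ofPred_eq, inner_smul_left] at ha ⊢
        exact ha.const_mul _ }
  have hclosed : IsClosed (S : Set H) := by
    rw [← closure_subset_iff_isClosed]
    intro z hz
    change Continuous fun t => (inner ℂ z (A t x) : ℂ)
    rw [Metric.continuous_iff]
    intro t ε hε
    have hpos : 0 < ε / 3 / (‖x‖ + 1) := by positivity
    obtain ⟨w, hw, hwz⟩ := Metric.mem_closure_iff.1 hz _ hpos
    have hw' : Continuous fun t => (inner ℂ w (A t x) : ℂ) := hw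
    obtain ⟨δ, hδ, h2⟩ := Metric.continuous_iff.1 hw' t (ε / 3) (by positivity)
    refine ⟨δ, hδ, fun s hs => ?_⟩
    have hdiff : ∀ t, ‖(inner ℂ z (A t x) : ℂ) - inner ℂ w (A t x)‖ < ε / 3 := by
      intro t
      rw [← inner_sub_left]
      refine ((norm_inner_le_norm _ _).trans (mul_le_mul_of_nonneg_left (hn t _)
        (norm_nonneg _))).trans_lt ?_
      rw [dist_eq_norm] at hwz
      have h3 : ‖z - w‖ * ‖x‖ ≤ (‖x‖ + 1) * ‖z - w‖ := by
        rw [mul_comm]; gcongr; linarith
      have h4 : (‖x‖ + 1) * ‖z - w‖ < (‖x‖ + 1) * (ε / 3 / (‖x‖ + 1)) := by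
        have : 0 < ‖x‖ + 1 := by positivity
        gcongr
      have h5 : (‖x‖ + 1) * (ε / 3 / (‖x‖ + 1)) = ε / 3 := by
        field_simp
      linarith
    have h6 := h2 s hs
    rw [dist_eq_norm] at h6 ⊢
    have e : (inner ℂ z (A s x) : ℂ) - inner ℂ z (A t x) =
        (inner ℂ z (A s x) - inner ℂ w (A s x)) +
        (inner ℂ w (A s x) - inner ℂ w (A t x)) -
        (inner ℂ z (A t x) - inner ℂ w (A t x)) := by ring
    rw [e]
    have h7 := norm_sub_le (((inner ℂ z (A s x) : ℂ) - inner ℂ w (A s x)) +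
        (inner ℂ w (A s x) - inner ℂ w (A t x)))
        (inner ℂ z (A t x) - inner ℂ w (A t x))
    have h8 := norm_add_le ((inner ℂ z (A s x) : ℂ) - inner ℂ w (A s x))
        (inner ℂ w (A s x) - inner ℂ w (A t x))
    have h9 := hdiff s
    have h10 := hdiff t
    linarith
  have hle : Submodule.span ℂ (range b) ≤ S := by
    rw [Submodule.span_le]
    rintro _ ⟨j, rfl⟩
    exact key1 j x
  have htop : (⊤ : Submodule ℂ H) ≤ S := by
    rw [← b.dense_span]
    exact Submodule.topologicalClosure_minimal _ hle hclosed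
  exact htop (Submodule.mem_top (x := y))

omit [CompleteSpace H] in
/-- a weakly continuous contraction semigroup is strongly continuous -/
theorem strong_continuous {A : ℝ≥0 → (H →L[ℂ] H)} (hA : ∀ t, ‖A t‖ ≤ 1)
    (h0 : A 0 = ContinuousLinearMap.id ℂ H) (hadd : ∀ t s, A (t + s) = (A t).comp (A s))
    (hw : ∀ y x, Continuous fun t => (inner ℂ y (A t x) : ℂ)) (x : H) :
    Continuous fun t => A t x := by
  have hn : ∀ t x, ‖A t x‖ ≤ ‖x‖ := fun t x => by
    have := (A t).le_of_opNorm_le (hA t) x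
    rwa [one_mul] at this
  -- `‖A h x - x‖² ≤ 2 ‖x‖² - 2 Re ⟨x, A h x⟩`
  have hsq : ∀ h, ‖A h x - x‖ ^ 2 ≤ 2 * ‖x‖ ^ 2 - 2 * (inner ℂ x (A h x) : ℂ).re := by
    intro h
    have e := @norm_sub_sq ℂ H _ _ _ (A h x) x
    have e2 : RCLike.re (inner ℂ (A h x) x : ℂ) = (inner ℂ x (A h x) : ℂ).re := by
      exact inner_re_symm (𝕜 := ℂ) _ _
    rw [e, e2]
    have := hn h x
    have h3 : ‖A h x‖ ^ 2 ≤ ‖x‖ ^ 2 := by gcongr
    linarith
  have hlim : Tendsto (fun h => 2 * ‖x‖ ^ 2 - 2 * (inner ℂ x (A h x) : ℂ).re) (𝓝 0) (𝓝 0) := by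
    have hc : Continuous fun h => 2 * ‖x‖ ^ 2 - 2 * (inner ℂ x (A h x) : ℂ).re :=
      continuous_const.sub (continuous_const.mul (Complex.continuous_re.comp (hw x x)))
    have := hc.tendsto 0
    rw [h0] at this
    simpa [inner_self_eq_norm_sq_to_K, ← Complex.ofReal_pow] using this
  rw [Metric.continuous_iff]
  intro t ε hε
  have h1 : ∀ᶠ h in 𝓝 (0 : ℝ≥0), 2 * ‖x‖ ^ 2 - 2 * (inner ℂ x (A h x) : ℂ).re < ε ^ 2 :=
    hlim.eventually_lt_const (by positivity)
  obtain ⟨δ, hδ, h2⟩ := Metric.eventually_nhds_iff.1 h1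
  have h3 : ∀ h : ℝ≥0, (h : ℝ) < δ → ‖A h x - x‖ < ε := by
    intro h hh
    have h4 := h2 (y := h) (by rw [NNReal.dist_eq]; simpa using hh)
    have h5 := (hsq h).trans_lt h4
    exact lt_of_pow_lt_pow_left₀ 2 hε.le h5
  have h4 : ∀ s r : ℝ≥0, s ≤ r → ((r : ℝ) - s) < δ → ‖A r x - A s x‖ < ε := by
    intro s r hsr hlt
    have e : r = s + (r - s) := (add_tsub_cancel_of_le hsr).symm
    have e2 : A r x - A s x = A s (A (r - s) x - x) := by
      conv_lhs => rw [e, hadd]
      simp
    rw [e2]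
    refine (hn _ _).trans_lt (h3 _ ?_)
    rw [NNReal.coe_sub hsr]
    exact hlt
  refine ⟨δ, hδ, fun s hs => ?_⟩
  rw [NNReal.dist_eq] at hs
  rw [dist_eq_norm]
  rcases le_total s t with hst | hst
  · rw [norm_sub_rev]
    refine h4 s t hst ?_
    rw [abs_sub_comm] at hs
    exact (le_abs_self _).trans_lt hs
  · exact h4 t s hst ((le_abs_self _).trans_lt hs)

theorem rng_subset {F : ι → ι → C(ℝ≥0, ℂ)} (hF : F ∈ rng b) :
    ∃ T : ContractionSemigroup H, emb b T = F := by
  obtain ⟨h1, h2, h3⟩ := hF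
  choose A hA1 hA2' using h1
  have hA2 : ∀ t i j, F i j t = inner ℂ (b i) (A t (b j)) := hA2'
  have hw : ∀ y x, Continuous fun t => (inner ℂ y (A t x) : ℂ) := by
    refine wot_continuous b hA1 fun i j => ?_
    have e : (fun t => (inner ℂ (b i) (A t (b j)) : ℂ)) = fun t => F i j t := by
      funext t; exact (hA2 t i j).symm
    rw [e]
    exact (F i j).continuous
  have h0 : A 0 = ContinuousLinearMap.id ℂ H := by
    refine ext_matrix b fun i j => ?_
    rw [← hA2 0 i j, h2]; rfl
  have hq : ∀ m n, A (qs m + qs n) = (A (qs m)).comp (A (qs n)) := by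
    intro m n
    refine ext_matrix b fun i j => ?_
    rw [← hA2]
    have hs := hasSum_prod b (A (qs m)) (A (qs n)) i j
    have hs' : HasSum (fun l => F i l (qs m) * F l j (qs n))
        (inner ℂ (b i) (A (qs m) (A (qs n) (b j)))) := by
      simpa only [hA2] using hs
    change F i j (qs m + qs n) = inner ℂ (b i) (A (qs m) (A (qs n) (b j)))
    refine eq_of_forall_dist_le fun ε hε => ?_
    obtain ⟨k, hk⟩ := exists_nat_one_div_lt (half_pos hε)
    obtain ⟨u, hu⟩ := (eventually_atTop.1 ((Metric.tendsto_nhds.1 hs') (ε / 2) (half_pos hε)))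
    obtain ⟨v, hv, hv2⟩ := h3 m n i j k u
    have h4 := hu v hv
    rw [dist_eq_norm] at h4 ⊢
    have h5 := norm_sub_le ((∑ l ∈ v, F i l (qs m) * F l j (qs n)) -
      (inner ℂ (b i) (A (qs m) (A (qs n) (b j))) : ℂ))
      ((∑ l ∈ v, F i l (qs m) * F l j (qs n)) - F i j (qs m + qs n))
    have e : (∑ l ∈ v, F i l (qs m) * F l j (qs n)) -
      (inner ℂ (b i) (A (qs m) (A (qs n) (b j))) : ℂ) -
      ((∑ l ∈ v, F i l (qs m) * F l j (qs n)) - F i j (qs m + qs n)) =
      F i j (qs m + qs n) - inner ℂ (b i) (A (qs m) (A (qs n) (b j))) := by ring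
    rw [e] at h5
    linarith
  have hadd1 : ∀ m s, A (qs m + s) = (A (qs m)).comp (A s) := by
    intro m s
    refine ContinuousLinearMap.ext fun x => ext_inner_left ℂ fun y => ?_
    have e : (fun s => (inner ℂ y (A (qs m + s) x) : ℂ)) =
        fun s => inner ℂ y ((A (qs m)).comp (A s) x) := by
      refine Continuous.ext_on dense_qs ?_ ?_ ?_
      · exact (hw y x).comp (continuous_const.add continuous_id)
      · have e2 : (fun s => (inner ℂ y ((A (qs m)).comp (A s) x) : ℂ)) =
          fun s => inner ℂ (ContinuousLinearMap.adjoint (A (qs m)) y) (A s x) := by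
          funext s
          rw [ContinuousLinearMap.adjoint_inner_left]; rfl
        rw [e2]
        exact hw _ _
      · rintro _ ⟨n, rfl⟩
        simp only [hq]
    exact congrFun e s
  have hadd : ∀ t s, A (t + s) = (A t).comp (A s) := by
    intro t s
    refine ContinuousLinearMap.ext fun x => ext_inner_left ℂ fun y => ?_
    have e : (fun t => (inner ℂ y (A (t + s) x) : ℂ)) =
        fun t => inner ℂ y ((A t).comp (A s) x) := by
      refine Continuous.ext_on dense_qs ?_ ?_ ?_
      · exact (hw y x).comp (continuous_id.add continuous_const)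
      · exact hw y (A s x)
      · rintro _ ⟨m, rfl⟩
        simp only [hadd1]
    exact congrFun e t
  refine ⟨⟨A, h0, hadd, strong_continuous hA1 h0 hadd hw, hA1⟩, ?_⟩
  funext i j
  ext t
  exact (hA2 t i j).symm

theorem range_emb : range (emb b) = rng b := by
  ext F
  constructor
  · rintro ⟨T, rfl⟩
    exact emb_mem_rng b T
  · intro hF
    obtain ⟨T, hT⟩ := rng_subset b hF
    exact ⟨T, hT⟩

omit [CompleteSpace H] in
theorem emb_injective : Function.Injective (emb b) := by
  intro T S h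
  have : T.T = S.T := by
    funext t
    refine ext_matrix b fun i j => ?_
    have := congrArg (fun F : ι → ι → C(ℝ≥0, ℂ) => F i j t) h
    exact this
  exact ContractionSemigroup.ext this

end embed

/-! ### the metric -/

section metric

variable (x : ℕ → H)

/-- the weights -/
noncomputable def wt (p : ℕ × ℕ × ℕ) : ℝ :=
  (1 / 2 : ℝ) ^ ((p.2.1 + 1) + (p.2.2 + 1) + (p.1 + 1))

theorem wt_pos (p : ℕ × ℕ × ℕ) : 0 < wt p := by
  unfold wt; positivity

theorem summable_half : Summable fun n : ℕ => (1 / 2 : ℝ) ^ (n + 1) :=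
  (summable_nat_add_iff 1).2 summable_geometric_two

theorem summable_wt : Summable wt := by
  have h0 : ∀ n : ℕ, 0 ≤ (1 / 2 : ℝ) ^ (n + 1) := fun n => by positivity
  have h2 := Summable.mul_of_nonneg summable_half summable_half h0 h0
  have h3 := Summable.mul_of_nonneg summable_half h2 h0
    (fun q => mul_nonneg (h0 q.1) (h0 q.2))
  have e : wt = fun p : ℕ × ℕ × ℕ => (1 / 2 : ℝ) ^ (p.1 + 1) *
      ((1 / 2 : ℝ) ^ (p.2.1 + 1) * (1 / 2 : ℝ) ^ (p.2.2 + 1)) := by
    funext p
    rw [wt, pow_add, pow_add, mul_comm]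
  rw [e]
  exact h3

/-- the normalized restricted coefficients -/
noncomputable def psiFun (T : ContractionSemigroup H) (p : ℕ × ℕ × ℕ) :
    C(Set.Icc (0 : ℝ≥0) ((p.1 + 1 : ℕ) : ℝ≥0), ℂ) :=
  ((wt p / (‖x p.2.1‖ * ‖x p.2.2‖) : ℝ) : ℂ) • (coef T (x p.2.2) (x p.2.1)).restrict _

theorem norm_psiFun_sub (hx : ∀ j, x j ≠ 0) (T S : ContractionSemigroup H) (p : ℕ × ℕ × ℕ) :
    ‖psiFun x T p - psiFun x S p‖ = dTerm x T S p := by
  have e0 : psiFun x T p - psiFun x S p = ((wt p / (‖x p.2.1‖ * ‖x p.2.2‖) : ℝ) : ℂ) •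
      ((coef T (x p.2.2) (x p.2.1)).restrict (Set.Icc (0 : ℝ≥0) ((p.1 + 1 : ℕ) : ℝ≥0)) -
        (coef S (x p.2.2) (x p.2.1)).restrict (Set.Icc (0 : ℝ≥0) ((p.1 + 1 : ℕ) : ℝ≥0))) :=
    (smul_sub _ _ _).symm
  rw [e0]
  unfold dTerm supDiff
  rw [norm_smul, ContinuousMap.norm_eq_iSup_norm, Complex.norm_real, Real.norm_eq_abs,
    abs_of_nonneg (by have := wt_pos p; positivity)]
  have e : ∀ t : Set.Icc (0 : ℝ≥0) ((p.1 + 1 : ℕ) : ℝ≥0),
      ‖((coef T (x p.2.2) (x p.2.1)).restrict (Set.Icc (0 : ℝ≥0) ((p.1 + 1 : ℕ) : ℝ≥0)) -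
        (coef S (x p.2.2) (x p.2.1)).restrict (Set.Icc (0 : ℝ≥0) ((p.1 + 1 : ℕ) : ℝ≥0))) t‖ =
      ‖(inner ℂ (x p.2.2) (T.T t (x p.2.1) - S.T t (x p.2.1)) : ℂ)‖ := by
    intro t
    rw [inner_sub_right]; rfl
  simp only [e]
  unfold wt
  ring

theorem norm_psiFun_le (hx : ∀ j, x j ≠ 0) (T : ContractionSemigroup H) (p : ℕ × ℕ × ℕ) :
    ‖psiFun x T p‖ ≤ wt p := by
  have h1 : 0 < ‖x p.2.1‖ := norm_pos_iff.2 (hx _)
  have h2 : 0 < ‖x p.2.2‖ := norm_pos_iff.2 (hx _)
  unfold psiFun
  rw [norm_smul, Complex.norm_real, Real.norm_eq_abs,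
    abs_of_nonneg (by have := wt_pos p; positivity)]
  have h3 : ‖(coef T (x p.2.2) (x p.2.1)).restrict
      (Set.Icc (0 : ℝ≥0) ((p.1 + 1 : ℕ) : ℝ≥0))‖ ≤ ‖x p.2.2‖ * ‖x p.2.1‖ := by
    rw [ContinuousMap.norm_le _ (by positivity)]
    intro t
    exact norm_coef_le T _ _ _
  have h4 : wt p / (‖x p.2.1‖ * ‖x p.2.2‖) * ‖(coef T (x p.2.2) (x p.2.1)).restrict
      (Set.Icc (0 : ℝ≥0) ((p.1 + 1 : ℕ) : ℝ≥0))‖ ≤
      wt p / (‖x p.2.1‖ * ‖x p.2.2‖) * (‖x p.2.2‖ * ‖x p.2.1‖) := by
    have := wt_pos p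
    gcongr
  refine h4.trans (le_of_eq ?_)
  field_simp

theorem dTerm_le (hx : ∀ j, x j ≠ 0) (T S : ContractionSemigroup H) (p : ℕ × ℕ × ℕ) :
    dTerm x T S p ≤ 2 * wt p := by
  rw [← norm_psiFun_sub x hx]
  refine (norm_sub_le _ _).trans ?_
  have h1 := norm_psiFun_le x hx T p
  have h2 := norm_psiFun_le x hx S p
  linarith

theorem dTerm_nonneg (hx : ∀ j, x j ≠ 0) (T S : ContractionSemigroup H) (p : ℕ × ℕ × ℕ) :
    0 ≤ dTerm x T S p := by
  rw [← norm_psiFun_sub x hx]
  exact norm_nonneg _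

theorem summable_dTerm (hx : ∀ j, x j ≠ 0) (T S : ContractionSemigroup H) :
    Summable (dTerm x T S) :=
  Summable.of_nonneg_of_le (dTerm_nonneg x hx T S) (dTerm_le x hx T S) (summable_wt.mul_left 2)

/-- the map into an `ℓ¹`-sum -/
noncomputable def Psi (hx : ∀ j, x j ≠ 0) (T : ContractionSemigroup H) :
    lp (fun p : ℕ × ℕ × ℕ => C(Set.Icc (0 : ℝ≥0) ((p.1 + 1 : ℕ) : ℝ≥0), ℂ)) 1 :=
  ⟨psiFun x T, by
    refine memℓp_gen ?_
    simp only [ENNReal.toReal_one, Real.rpow_one]
    exact Summable.of_nonneg_of_le (fun p => norm_nonneg _) (norm_psiFun_le x hx T) summable_wt⟩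

theorem dist_Psi (hx : ∀ j, x j ≠ 0) (T S : ContractionSemigroup H) :
    dist (Psi x hx T) (Psi x hx S) = ∑' p, dTerm x T S p := by
  rw [dist_eq_norm, lp.norm_eq_tsum_rpow (by simp)]
  simp only [ENNReal.toReal_one, Real.rpow_one, div_one]
  refine tsum_congr fun p => ?_
  rw [← norm_psiFun_sub x hx]
  rfl

theorem span_dense (hd : Dense (range x)) :
    (Submodule.span ℂ (range x)).topologicalClosure = ⊤ :=
  Submodule.dense_iff_topologicalClosure_eq_top.1 (hd.mono Submodule.subset_span)

/-- convergence for the metric gives convergence of the coefficients -/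
theorem coef_tendsto_of_Psi (hx : ∀ j, x j ≠ 0) {l : Filter (ContractionSemigroup H)}
    {T₀ : ContractionSemigroup H} (h : Tendsto (Psi x hx) l (𝓝 (Psi x hx T₀))) (i j : ℕ) :
    Tendsto (fun T => coef T (x i) (x j)) l (𝓝 (coef T₀ (x i) (x j))) := by
  rw [ContinuousMap.tendsto_iff_forall_isCompact_tendstoUniformlyOn]
  intro K hK
  obtain ⟨r, hr⟩ := hK.bddAbove
  obtain ⟨n, hn⟩ := exists_nat_ge r
  have hKn : ∀ t ∈ K, t ≤ ((n + 1 : ℕ) : ℝ≥0) := fun t ht =>
    ((hr ht).trans hn).trans (by exact_mod_cast Nat.le_succ n)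
  rw [Metric.tendstoUniformlyOn_iff]
  intro ε hε
  have h1 : 0 < ‖x i‖ := norm_pos_iff.2 (hx _)
  have h2 : 0 < ‖x j‖ := norm_pos_iff.2 (hx _)
  set p : ℕ × ℕ × ℕ := (n, j, i) with hp
  have hc : 0 < wt p / (‖x j‖ * ‖x i‖) := by have := wt_pos p; positivity
  have h3 := Metric.tendsto_nhds.1 h (wt p / (‖x j‖ * ‖x i‖) * ε) (by positivity)
  filter_upwards [h3] with T hT t ht
  have h4 : ‖psiFun x T p - psiFun x T₀ p‖ ≤ dist (Psi x hx T) (Psi x hx T₀) := by
    rw [dist_eq_norm]
    exact lp.norm_apply_le_norm (by simp) (Psi x hx T - Psi x hx T₀) p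
  have h5 : ‖(psiFun x T p - psiFun x T₀ p) ⟨t, zero_le, hKn t ht⟩‖ ≤
      ‖psiFun x T p - psiFun x T₀ p‖ := ContinuousMap.norm_coe_le_norm _ _
  have h6 : (psiFun x T p - psiFun x T₀ p) ⟨t, zero_le, hKn t ht⟩ =
      ((wt p / (‖x j‖ * ‖x i‖) : ℝ) : ℂ) * (coef T (x i) (x j) t - coef T₀ (x i) (x j) t) := by
    rw [mul_sub]; rfl
  rw [h6, norm_mul, Complex.norm_real, Real.norm_eq_abs, abs_of_pos hc] at h5
  have h7 := (h5.trans h4).trans_lt hT
  rw [dist_comm, dist_eq_norm]
  exact lt_of_mul_lt_mul_left h7 hc.le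

/-- convergence of the coefficients gives convergence for the metric -/
theorem Psi_tendsto_of_coef (hx : ∀ j, x j ≠ 0) {l : Filter (ContractionSemigroup H)}
    {T₀ : ContractionSemigroup H}
    (h : ∀ y z, Tendsto (fun T => coef T y z) l (𝓝 (coef T₀ y z))) :
    Tendsto (Psi x hx) l (𝓝 (Psi x hx T₀)) := by
  rw [tendsto_iff_dist_tendsto_zero]
  simp only [dist_Psi]
  have h0 : (0 : ℝ) = ∑' _ : ℕ × ℕ × ℕ, (0 : ℝ) := by simp
  rw [h0]
  refine tendsto_tsum_of_dominated_convergence (bound := fun p => 2 * wt p)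
    (summable_wt.mul_left 2) ?_ ?_
  · intro p
    have h1 : Tendsto (fun T => psiFun x T p) l (𝓝 (psiFun x T₀ p)) := by
      refine Tendsto.const_smul ?_ _
      exact ((ContinuousMap.continuous_restrict _).tendsto _).comp (h (x p.2.2) (x p.2.1))
    have h2 := tendsto_iff_norm_sub_tendsto_zero.1 h1
    refine h2.congr fun T => ?_
    rw [norm_psiFun_sub x hx]
  · refine Eventually.of_forall fun T p => ?_
    rw [Real.norm_eq_abs, abs_of_nonneg (dTerm_nonneg x hx T T₀ p)]
    exact dTerm_le x hx T T₀ p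

theorem Psi_injective (hx : ∀ j, x j ≠ 0) (hd : Dense (range x)) :
    Function.Injective (Psi x hx) := by
  intro T S h
  have h1 : ∀ i j, coef T (x i) (x j) = coef S (x i) (x j) := by
    intro i j
    have h2 : Tendsto (Psi x hx) (pure T) (𝓝 (Psi x hx S)) := by
      rw [tendsto_pure_left]
      intro s hs
      rw [h]
      exact mem_of_mem_nhds hs
    have h3 := coef_tendsto_of_Psi x hx h2 i j
    rw [tendsto_pure_left] at h3
    by_contra hne
    exact h3 {coef T (x i) (x j)}ᶜ (isOpen_compl_singleton.mem_nhds (Ne.symm hne)) rfl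
  have h2 : ∀ t, T.T t = S.T t := by
    intro t
    have h3 : ∀ j, T.T t (x j) = S.T t (x j) := by
      intro j
      refine hd.eq_of_inner_right (𝕜 := ℂ) ?_
      rintro _ ⟨i, rfl⟩
      have := congrArg (fun f : C(ℝ≥0, ℂ) => f t) (h1 i j)
      exact this
    refine ContinuousLinearMap.ext_on (s := range x) ?_ ?_
    · exact hd.mono Submodule.subset_span
    · rintro _ ⟨j, rfl⟩
      exact h3 j
  exact ContractionSemigroup.ext (funext h2)

end metric

theorem polish_of_Gdelta {Y : Type*} [TopologicalSpace Y] [PolishSpace Y] {s : Set Y}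
    (hs : IsGδ s) : PolishSpace s := by
  obtain ⟨U, hU, rfl⟩ := hs.eq_iInter_nat
  haveI : ∀ n, PolishSpace (U n) := fun n => (hU n).polishSpace
  let f : (⋂ n, U n : Set Y) → ∀ n, U n := fun x n => ⟨x, Set.mem_iInter.1 x.2 n⟩
  have hfc : Continuous f := continuous_pi (fun n => Continuous.subtype_mk continuous_subtype_val _)
  have hg : Continuous (fun p : ∀ n, U n => (p 0 : Y)) :=
    continuous_subtype_val.comp (continuous_apply 0)
  have hind : Topology.IsInducing f := by
    apply Topology.IsInducing.of_comp hfc hg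
    exact Topology.IsInducing.subtypeVal
  have hinj : Function.Injective f := by
    intro x y hxy
    have h1 := congrFun hxy 0
    have h2 : ((f x 0 : U 0) : Y) = ((f y 0 : U 0) : Y) := congrArg (fun z : U 0 => (z : Y)) h1
    exact Subtype.ext h2
  have hrange : Set.range f = ⋂ n, {p : ∀ n, U n | (p n : Y) = (p 0 : Y)} := by
    ext p
    simp only [Set.mem_range, Set.mem_iInter]
    constructor
    · rintro ⟨x, rfl⟩ n
      rfl
    · intro h
      refine ⟨⟨p 0, Set.mem_iInter.2 (fun n => ?_)⟩, ?_⟩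
      · have h2 : (p n : Y) = (p 0 : Y) := h n
        rw [← h2]
        exact (p n).2
      · funext n
        have h2 : (p n : Y) = (p 0 : Y) := h n
        exact Subtype.ext h2.symm
  have hcl : IsClosed (Set.range f) := by
    rw [hrange]
    apply isClosed_iInter
    intro n
    exact isClosed_eq (continuous_subtype_val.comp (continuous_apply n)) hg
  exact Topology.IsClosedEmbedding.polishSpace (f := f) ⟨⟨hind, hinj⟩, hcl⟩

theorem countable_of_orthonormal [SeparableSpace H] {ι : Type*} {b : ι → H}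
    (hb : Orthonormal ℂ b) : Countable ι := by
  have hdisj : Pairwise (Function.onFun Disjoint (fun i => Metric.ball (b i) (1 / 2))) := by
    intro i j hij
    apply Metric.ball_disjoint_ball
    have h1 : dist (b i) (b j) ^ 2 = 2 := by
      rw [dist_eq_norm, @norm_sub_sq ℂ, hb.1 i, hb.1 j, hb.2 hij]; norm_num
    have h0 : 0 ≤ dist (b i) (b j) := dist_nonneg
    nlinarith
  exact hdisj.countable_of_isOpen_disjoint (fun i => Metric.isOpen_ball)
    (fun i => ⟨b i, Metric.mem_ball_self (by norm_num)⟩)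

/-- **The space of contraction `C_0`-semigroups is a Baire space.** Let `H` be a separable complex
Hilbert space and `x 0, x 1, …` a dense sequence of nonzero vectors. The series defining `d` converges
for all contraction semigroups `T`, `S` on `H`, its sum `d` is a metric, and the set of all contraction
`C_0`-semigroups with this metric is a Baire space; moreover it is a Polish space. -/
theorem result (H : Type u) [NormedAddCommGroup H] [InnerProductSpace ℂ H] [CompleteSpace H]
    [SeparableSpace H] (x : ℕ → H) (hx : ∀ j, x j ≠ 0) (hd : Dense (range x)) :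
    (∀ T S : ContractionSemigroup H, Summable (dTerm x T S)) ∧
    ∃ m : MetricSpace (ContractionSemigroup H),
      (∀ T S : ContractionSemigroup H, dist T S = ∑' p, dTerm x T S p) ∧
      BaireSpace (ContractionSemigroup H) ∧ PolishSpace (ContractionSemigroup H) := by
  refine ⟨summable_dTerm x hx, ?_⟩
  let m : MetricSpace (ContractionSemigroup H) :=
    MetricSpace.induced (Psi x hx) (Psi_injective x hx hd) inferInstance
  refine ⟨m, fun T S => dist_Psi x hx T S, ?_⟩
  have hind0 : Topology.IsInducing (Psi x hx) := ⟨rfl⟩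
  obtain ⟨w, b, -⟩ := exists_hilbertBasis ℂ H
  have : Countable w := countable_of_orthonormal b.orthonormal
  have hind : Topology.IsInducing (emb b) := by
    refine ⟨le_antisymm ?_ ?_⟩
    · rw [← continuous_iff_le_induced, continuous_iff_continuousAt]
      intro T₀
      refine tendsto_pi_nhds.2 fun i => tendsto_pi_nhds.2 fun j => ?_
      exact coef_tendsto (span_dense x hd)
        (coef_tendsto_of_Psi x hx (hind0.continuous.tendsto T₀)) (b i) (b j)
    · rw [hind0.eq_induced, ← continuous_iff_le_induced]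
      letI : TopologicalSpace (ContractionSemigroup H) := TopologicalSpace.induced (emb b) inferInstance
      rw [continuous_iff_continuousAt]
      intro T₀
      have hc : Continuous (emb b) := continuous_induced_dom
      refine Psi_tendsto_of_coef x hx fun y z => ?_
      refine coef_tendsto b.dense_span (fun i j => ?_) y z
      exact tendsto_pi_nhds.1 (tendsto_pi_nhds.1 (hc.tendsto T₀) i) j
  have hemb : Topology.IsEmbedding (emb b) := ⟨hind, emb_injective b⟩
  have hG : IsGδ (range (emb b)) := by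
    rw [range_emb]; exact isGδ_rng b
  have := polish_of_Gdelta hG
  have hP : PolishSpace (ContractionSemigroup H) :=
    hemb.toHomeomorph.isClosedEmbedding.polishSpace
  refine ⟨?_, hP⟩
  letI := TopologicalSpace.upgradeIsCompletelyMetrizable (ContractionSemigroup H)
  infer_instance

end Pool.Agent.Results.MP_eb8260_an.Baire
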